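import Pool.Agent.W2helper17.TP.Stm

/-!
# Project TP, piece AVG: norm convergence of ball averages of band-dominated operators
-/

namespace TP.Avg43

open MeasureTheory Complex TP
open scoped ENNReal

noncomputable section

instance : SFinite gm := by unfold gm; infer_instance

theorem ind_bdm {K : Set ℂ} (hK : MeasurableSet K) : Bdm (ind K) :=
  ⟨measurable_const.indicator hK, 1, fun z => by
    unfold ind; by_cases h : z ∈ K <;> simp [h]⟩

theorem M_ind {K : Set ℂ} (hK : MeasurableSet K) (f : H) :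
    M (ind K) f =ᵐ[gm] K.indicator f := by
  filter_upwards [M_coe (ind_bdm hK) f] with z hz
  rw [hz]; by_cases h : z ∈ K <;> simp [ind, h]

/-- the square of the norm as a lower integral -/
theorem nsq (g : H) : ENNReal.ofReal (‖g‖ ^ 2) = ∫⁻ z, ‖g z‖ₑ ^ 2 ∂gm := by
  have h1 : ‖g‖ₑ = eLpNorm g 2 gm := by
    rw [Lp.enorm_def]
  have h2 : ENNReal.ofReal (‖g‖ ^ 2) = ‖g‖ₑ ^ 2 := by
    rw [ENNReal.ofReal_pow (norm_nonneg _), ofReal_norm]
  rw [h2, h1, eLpNorm_eq_lintegral_rpow_enorm_toReal (by norm_num) (by norm_num)]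
  simp only [ENNReal.toReal_ofNat]
  rw [← ENNReal.rpow_natCast, ← ENNReal.rpow_mul]
  norm_num

theorem nsq_ind {K : Set ℂ} (hK : MeasurableSet K) (f : H) :
    ENNReal.ofReal (‖M (ind K) f‖ ^ 2) = ∫⁻ z, K.indicator (fun z => ‖f z‖ₑ ^ 2) z ∂gm := by
  rw [nsq]
  apply lintegral_congr_ae
  filter_upwards [M_ind hK f] with z hz
  rw [hz]
  by_cases h : z ∈ K <;> simp [h]

/-- translate of `K` -/
def Tr (K : Set ℂ) (v : ℂ) : Set ℂ := {z | z - v ∈ K}

theorem Tr_meas {K : Set ℂ} (hK : MeasurableSet K) (v : ℂ) : MeasurableSet (Tr K v) :=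
  hK.preimage (measurable_id.sub_const v)

theorem meas_S {K : Set ℂ} (hK : MeasurableSet K) :
    MeasurableSet {p : ℂ × ℂ | p.2 - p.1 ∈ K} :=
  hK.preimage (measurable_snd.sub measurable_fst)

theorem meas_F {K : Set ℂ} (hK : MeasurableSet K) (f : H) :
    Measurable ({p : ℂ × ℂ | p.2 - p.1 ∈ K}.indicator (fun p => ‖f p.2‖ₑ ^ 2)) := by
  apply Measurable.indicator _ (meas_S hK)
  have h1 : Measurable (f : ℂ → ℂ) := (Lp.stronglyMeasurable f).measurable
  exact ((h1.comp measurable_snd).enorm).pow_const 2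

theorem nsq_Tr {K : Set ℂ} (hK : MeasurableSet K) (f : H) (v : ℂ) :
    ENNReal.ofReal (‖M (ind (Tr K v)) f‖ ^ 2) =
      ∫⁻ z, {p : ℂ × ℂ | p.2 - p.1 ∈ K}.indicator (fun p => ‖f p.2‖ₑ ^ 2) (v, z) ∂gm := by
  rw [nsq_ind (Tr_meas hK v)]
  rfl

theorem meas_nsq {K : Set ℂ} (hK : MeasurableSet K) (f : H) :
    Measurable (fun v => ‖M (ind (Tr K v)) f‖) := by
  have h1 : Measurable (fun v => ENNReal.ofReal (‖M (ind (Tr K v)) f‖ ^ 2)) := by
    simp_rw [nsq_Tr hK f]
    exact (meas_F hK f).lintegral_prod_right'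
  have h2 : (fun v => ‖M (ind (Tr K v)) f‖) =
      fun v => Real.sqrt (ENNReal.ofReal (‖M (ind (Tr K v)) f‖ ^ 2)).toReal := by
    funext v
    rw [ENNReal.toReal_ofReal (by positivity), Real.sqrt_sq (norm_nonneg _)]
  rw [h2]
  exact h1.ennreal_toReal.sqrt

/-- Tonelli -/
theorem fub {K : Set ℂ} (hK : MeasurableSet K) (f : H) :
    ∫⁻ v : ℂ, ENNReal.ofReal (‖M (ind (Tr K v)) f‖ ^ 2) =
      volume K * ENNReal.ofReal (‖f‖ ^ 2) := by
  simp_rw [nsq_Tr hK f]
  rw [lintegral_lintegral_swap (f := fun v z =>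
    {p : ℂ × ℂ | p.2 - p.1 ∈ K}.indicator (fun p => ‖f p.2‖ₑ ^ 2) (v, z))
    (meas_F hK f).aemeasurable]
  have h1 : Measurable (fun z => ‖f z‖ₑ ^ 2) :=
    ((Lp.stronglyMeasurable f).measurable.enorm).pow_const 2
  rw [nsq f, ← lintegral_const_mul _ h1]
  apply lintegral_congr
  intro z
  have h2 : (fun v : ℂ => {p : ℂ × ℂ | p.2 - p.1 ∈ K}.indicator (fun p => ‖f p.2‖ₑ ^ 2) (v, z)) =
      {v : ℂ | z - v ∈ K}.indicator (fun _ => ‖f z‖ₑ ^ 2) := by
    funext v
    by_cases h : z - v ∈ K <;> simp [h]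
  have h4 : MeasurableSet {v : ℂ | z - v ∈ K} := hK.preimage (measurable_const.sub measurable_id)
  rw [h2, lintegral_indicator_const h4, mul_comm]
  congr 1
  exact (Measure.measurePreserving_sub_left (volume : Measure ℂ) z).measure_preimage
    hK.nullMeasurableSet

theorem int_sq {K : Set ℂ} (hK : MeasurableSet K) (hv : volume K ≠ ∞) (f : H) :
    Integrable (fun v : ℂ => ‖M (ind (Tr K v)) f‖ ^ 2) := by
  refine ⟨((meas_nsq hK f).pow_const 2).aestronglyMeasurable, ?_⟩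
  rw [hasFiniteIntegral_iff_ofReal (Filter.Eventually.of_forall fun v => by positivity), fub hK f]
  exact ENNReal.mul_lt_top (lt_top_iff_ne_top.mpr hv) ENNReal.ofReal_lt_top

theorem integral_sq {K : Set ℂ} (hK : MeasurableSet K) (f : H) :
    ∫ v : ℂ, ‖M (ind (Tr K v)) f‖ ^ 2 = volume.real K * ‖f‖ ^ 2 := by
  rw [integral_eq_lintegral_of_nonneg_ae (Filter.Eventually.of_forall fun v => by positivity)
    ((meas_nsq hK f).pow_const 2).aestronglyMeasurable, fub hK f, ENNReal.toReal_mul,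
    ENNReal.toReal_ofReal (by positivity)]
  rfl

/-- Cauchy-Schwarz -/
theorem cs {K L : Set ℂ} (hK : MeasurableSet K) (hL : MeasurableSet L) (hv : volume K ≠ ∞)
    (hw : volume L ≠ ∞) (f h : H) :
    Integrable (fun v : ℂ => ‖M (ind (Tr K v)) f‖ * ‖M (ind (Tr L v)) h‖) ∧
    ∫ v : ℂ, ‖M (ind (Tr K v)) f‖ * ‖M (ind (Tr L v)) h‖ ≤
      Real.sqrt (volume.real K * volume.real L) * ‖f‖ * ‖h‖ := by
  have m1 : MemLp (fun v : ℂ => ‖M (ind (Tr K v)) f‖) 2 volume :=
    (memLp_two_iff_integrable_sq (meas_nsq hK f).aestronglyMeasurable).2 (int_sq hK hv f)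
  have m2 : MemLp (fun v : ℂ => ‖M (ind (Tr L v)) h‖) 2 volume :=
    (memLp_two_iff_integrable_sq (meas_nsq hL h).aestronglyMeasurable).2 (int_sq hL hw h)
  refine ⟨m1.integrable_mul m2, ?_⟩
  have h1 := integral_mul_le_Lp_mul_Lq_of_nonneg (μ := (volume : Measure ℂ)) (p := 2) (q := 2)
    (by constructor <;> norm_num) (f := fun v : ℂ => ‖M (ind (Tr K v)) f‖)
    (g := fun v : ℂ => ‖M (ind (Tr L v)) h‖)
    (Filter.Eventually.of_forall fun v => norm_nonneg _)
    (Filter.Eventually.of_forall fun v => norm_nonneg _) (by simpa using m1) (by simpa using m2)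
  refine h1.trans (le_of_eq ?_)
  simp only [Real.rpow_two]
  rw [integral_sq hK, integral_sq hL, ← Real.sqrt_eq_rpow, ← Real.sqrt_eq_rpow,
    Real.sqrt_mul' _ (by positivity), Real.sqrt_mul' _ (by positivity), Real.sqrt_sq (norm_nonneg _),
    Real.sqrt_sq (norm_nonneg _), Real.sqrt_mul' _ (by positivity)]
  ring

/-! ### algebra of the multiplication operators -/

theorem M_add {K L : Set ℂ} (hK : MeasurableSet K) (hL : MeasurableSet L) (hd : Disjoint K L)
    (f : H) : M (ind (K ∪ L)) f = M (ind K) f + M (ind L) f := by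
  apply Lp.ext
  filter_upwards [M_ind hK f, M_ind hL f, M_ind (hK.union hL) f,
    Lp.coeFn_add (M (ind K) f) (M (ind L) f)] with z h1 h2 h3 h4
  rw [h4, Pi.add_apply, h1, h2, h3, Set.indicator_union_of_disjoint hd]

theorem M_compl {K : Set ℂ} (hK : MeasurableSet K) (f : H) :
    M (ind K) f + M (ind Kᶜ) f = f := by
  apply Lp.ext
  filter_upwards [M_ind hK f, M_ind hK.compl f,
    Lp.coeFn_add (M (ind K) f) (M (ind Kᶜ) f)] with z h1 h2 h4
  rw [h4, Pi.add_apply, h1, h2]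
  by_cases h : z ∈ K <;> simp [h]

theorem M_inner {K : Set ℂ} (hK : MeasurableSet K) (f h : H) :
    inner ℂ (M (ind K) h) f = inner ℂ h (M (ind K) f) := by
  rw [L2.inner_def, L2.inner_def]
  apply integral_congr_ae
  filter_upwards [M_ind hK f, M_ind hK h] with z h1 h2
  rw [h1, h2]
  by_cases h : z ∈ K <;> simp [h]

theorem M_idem {K : Set ℂ} (hK : MeasurableSet K) (f : H) :
    M (ind K) (M (ind K) f) = M (ind K) f := by
  apply Lp.ext
  filter_upwards [M_ind hK f, M_ind hK (M (ind K) f)] with z h1 h2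
  rw [h2]
  by_cases h : z ∈ K <;> simp [h, h1]

theorem M_le {K : Set ℂ} (hK : MeasurableSet K) (f : H) : ‖M (ind K) f‖ ≤ ‖f‖ := by
  apply Lp.norm_le_norm_of_ae_le
  filter_upwards [M_ind hK f] with z h1
  rw [h1]
  by_cases h : z ∈ K <;> simp [h]


theorem Tr_ball (r : ℝ) (v : ℂ) : Tr (Metric.ball 0 r) v = Metric.ball v r := by
  ext z
  simp [Tr, dist_eq_norm]

theorem nsq_sub {K L : Set ℂ} (hK : MeasurableSet K) (hL : MeasurableSet L) (f : H) :
    ENNReal.ofReal (‖M (ind K) f - M (ind L) f‖ ^ 2) =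
      ∫⁻ z, ‖K.indicator f z - L.indicator f z‖ₑ ^ 2 ∂gm := by
  rw [nsq]
  apply lintegral_congr_ae
  filter_upwards [M_ind hK f, M_ind hL f, Lp.coeFn_sub (M (ind K) f) (M (ind L) f)] with z h1 h2 h3
  rw [h3, Pi.sub_apply, h1, h2]

/-- continuity of the cut-off in the centre -/
theorem cont_M (r : ℝ) (f : H) : Continuous (fun v : ℂ => M (ind (Metric.ball v r)) f) := by
  rw [continuous_iff_continuousAt]
  intro v₀
  rw [ContinuousAt, tendsto_iff_norm_sub_tendsto_zero]
  have hfm : Measurable (f : ℂ → ℂ) := (Lp.stronglyMeasurable f).measurable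
  have h1 : Filter.Tendsto (fun v : ℂ => ∫⁻ z, ‖(Metric.ball v r).indicator f z -
      (Metric.ball v₀ r).indicator f z‖ₑ ^ 2 ∂gm) (nhds v₀) (nhds (∫⁻ _, 0 ∂gm)) := by
    apply tendsto_lintegral_filter_of_dominated_convergence (fun z => ‖f z‖ₑ ^ 2)
    · filter_upwards with v
      exact (((hfm.indicator Metric.isOpen_ball.measurableSet).sub
        (hfm.indicator Metric.isOpen_ball.measurableSet)).enorm).pow_const 2
    · filter_upwards with v
      filter_upwards with z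
      by_cases h : z ∈ Metric.ball v r <;> by_cases h' : z ∈ Metric.ball v₀ r <;>
        simp [h, h']
    · rw [← nsq]; exact ENNReal.ofReal_ne_top
    · have h2 : ∀ᵐ z ∂gm, z ∉ Metric.sphere v₀ r ∨ r = 0 := by
        rw [ae_gm_iff]
        by_cases hr : r = 0
        · filter_upwards with z; right; exact hr
        · have h3 : volume (Metric.sphere v₀ r) = 0 := Measure.addHaar_sphere_of_ne_zero _ _ hr
          filter_upwards [compl_mem_ae_iff.2 h3] with z hz
          left; exact hz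
      filter_upwards [h2] with z hz
      apply tendsto_const_nhds.congr'
      by_cases h4 : dist z v₀ < r
      · have h5 : ∀ᶠ v in nhds v₀, dist z v < r :=
          (continuous_const.dist continuous_id).continuousAt.eventually_lt
            continuousAt_const h4
        filter_upwards [h5] with v hv
        simp [Metric.mem_ball, h4, hv]
      · by_cases h5 : r = 0
        · filter_upwards with v
          subst h5
          simp
        · have h6 : r < dist z v₀ := by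
            rcases hz with hz | hz
            · rw [Metric.mem_sphere] at hz
              exact lt_of_le_of_ne (not_lt.mp h4) (Ne.symm hz)
            · exact absurd hz h5
          have h7 : ∀ᶠ v in nhds v₀, r < dist z v :=
            continuousAt_const.eventually_lt
              (continuous_const.dist continuous_id).continuousAt h6
          filter_upwards [h7] with v hv
          simp [Metric.mem_ball, h4, not_lt.mpr hv.le]
  simp_rw [← nsq_sub (Metric.isOpen_ball.measurableSet) (Metric.isOpen_ball.measurableSet) f] at h1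
  rw [lintegral_zero] at h1
  have h2 := (ENNReal.continuousAt_toReal (ENNReal.zero_ne_top)).tendsto.comp h1
  simp only [Function.comp_def, ENNReal.toReal_zero] at h2
  have h3 := (Real.continuous_sqrt.tendsto 0).comp h2
  simp only [Function.comp_def, Real.sqrt_zero] at h3
  refine h3.congr ?_
  intro v
  rw [ENNReal.toReal_ofReal (by positivity), Real.sqrt_sq (norm_nonneg _)]

theorem comb {a b c d : ℂ → ℂ} (ha : Integrable a) (hb : Integrable b) (hc : Integrable c)
    (hd : Integrable d) :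
    Integrable (fun v => ((a v - b v) + (c v - d v) * Complex.I) / 4) ∧
    ∫ v, ((a v - b v) + (c v - d v) * Complex.I) / 4 =
      (((∫ v, a v) - ∫ v, b v) + ((∫ v, c v) - ∫ v, d v) * Complex.I) / 4 := by
  have h1 : Integrable (fun v => a v - b v) := ha.sub hb
  have h2 : Integrable (fun v => (c v - d v) * Complex.I) := (hc.sub hd).mul_const _
  refine ⟨(h1.add h2).div_const _, ?_⟩
  rw [integral_div, integral_add h1 h2, integral_mul_const, integral_sub ha hb, integral_sub hc hd]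

/-- polarised Tonelli -/
theorem repr {K : Set ℂ} (hK : MeasurableSet K) (hv : volume K ≠ ∞) (f g : H) :
    Integrable (fun v : ℂ => inner ℂ (M (ind (Tr K v)) g) (M (ind (Tr K v)) f)) ∧
    ∫ v : ℂ, inner ℂ (M (ind (Tr K v)) g) (M (ind (Tr K v)) f) =
      (volume.real K : ℂ) * inner ℂ g f := by
  have e : (fun v : ℂ => inner ℂ (M (ind (Tr K v)) g) (M (ind (Tr K v)) f)) =
      fun v => ((((‖M (ind (Tr K v)) (g + f)‖ ^ 2 : ℝ) : ℂ) -
          ((‖M (ind (Tr K v)) (g - f)‖ ^ 2 : ℝ) : ℂ)) +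
        (((‖M (ind (Tr K v)) (g - Complex.I • f)‖ ^ 2 : ℝ) : ℂ) -
          ((‖M (ind (Tr K v)) (g + Complex.I • f)‖ ^ 2 : ℝ) : ℂ)) * Complex.I) / 4 := by
    funext v
    rw [inner_eq_sum_norm_sq_div_four (𝕜 := ℂ)]
    simp only [map_add, map_sub, map_smul]
    push_cast
    rfl
  have i := fun F : H => ((int_sq hK hv F).ofReal (𝕜 := ℂ))
  have q : ∀ F : H, ∫ v : ℂ, ((‖M (ind (Tr K v)) F‖ ^ 2 : ℝ) : ℂ) =
      (volume.real K : ℂ) * ((‖F‖ ^ 2 : ℝ) : ℂ) := by
    intro F
    rw [← Complex.ofReal_mul, ← integral_sq hK]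
    exact integral_ofReal (𝕜 := ℂ) (f := fun v : ℂ => ‖M (ind (Tr K v)) F‖ ^ 2)
  obtain ⟨c1, c2⟩ := comb (i (g + f)) (i (g - f)) (i (g - Complex.I • f)) (i (g + Complex.I • f))
  rw [e]
  refine ⟨c1, c2.trans ?_⟩
  have e2 : (inner ℂ g f : ℂ) = ((((‖g + f‖ ^ 2 : ℝ) : ℂ) - ((‖g - f‖ ^ 2 : ℝ) : ℂ)) +
        (((‖g - Complex.I • f‖ ^ 2 : ℝ) : ℂ) -
          ((‖g + Complex.I • f‖ ^ 2 : ℝ) : ℂ)) * Complex.I) / 4 := by
    rw [inner_eq_sum_norm_sq_div_four (𝕜 := ℂ)]
    push_cast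
    rfl
  rw [e2]
  have q1 := q (g + f)
  have q2 := q (g - f)
  have q3 := q (g - Complex.I • f)
  have q4 := q (g + Complex.I • f)
  rw [show (∫ v : ℂ, (RCLike.ofReal (‖M (ind (Tr K v)) (g + f)‖ ^ 2) : ℂ)) = _ from q1,
    show (∫ v : ℂ, (RCLike.ofReal (‖M (ind (Tr K v)) (g - f)‖ ^ 2) : ℂ)) = _ from q2,
    show (∫ v : ℂ, (RCLike.ofReal (‖M (ind (Tr K v)) (g - Complex.I • f)‖ ^ 2) : ℂ)) = _ from q3,
    show (∫ v : ℂ, (RCLike.ofReal (‖M (ind (Tr K v)) (g + Complex.I • f)‖ ^ 2) : ℂ)) = _ from q4]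
  ring

/-! ### band operators -/

/-- a band operator kills far apart pieces -/
theorem band_zero {B : H →L[ℂ] H} {w : ℝ≥0∞} (hw : w ≠ ∞)
    (hB : ∀ K L : Set ℂ, MeasurableSet K → MeasurableSet L →
      (M (ind L)) ∘L B ∘L (M (ind K)) ≠ 0 → setDist K L ≤ w) {s : ℝ} (hs : w.toReal < s)
    {K L : Set ℂ} (hK : MeasurableSet K) (hL : MeasurableSet L)
    (hd : ∀ x ∈ K, ∀ y ∈ L, s ≤ dist x y) (f : H) : M (ind L) (B (M (ind K) f)) = 0 := by
  by_contra hne
  have h1 : (M (ind L)) ∘L B ∘L (M (ind K)) ≠ 0 := by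
    intro h0
    apply hne
    have := congrArg (fun T : H →L[ℂ] H => T f) h0
    simpa using this
  have h2 := hB K L hK hL h1
  have h3 : ENNReal.ofReal s ≤ setDist K L := by
    unfold setDist
    refine le_iInf₂ fun x hx => le_iInf₂ fun y hy => ?_
    rw [edist_dist]
    exact ENNReal.ofReal_le_ofReal (hd x hx y hy)
  have h4 : ENNReal.ofReal s ≤ w := h3.trans h2
  have h5 : s ≤ w.toReal := by
    rw [← ENNReal.ofReal_toReal hw] at h4
    have := (ENNReal.ofReal_le_ofReal_iff ENNReal.toReal_nonneg).1 h4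
    exact this
  linarith

/-- the main pointwise estimate -/
theorem key {B : H →L[ℂ] H} {w : ℝ≥0∞} (hw : w ≠ ∞)
    (hB : ∀ K L : Set ℂ, MeasurableSet K → MeasurableSet L →
      (M (ind L)) ∘L B ∘L (M (ind K)) ≠ 0 → setDist K L ≤ w) {s r : ℝ} (hs : w.toReal < s)
    (f h : H) (v : ℂ) :
    ‖(inner ℂ (M (ind (Metric.ball v r)) h) (B (M (ind (Metric.ball v r)) f)) : ℂ) -
      inner ℂ h (B (M (ind (Metric.ball v r)) f))‖ ≤
    ‖B‖ * (‖M (ind (Tr (Metric.ball 0 r \ Metric.ball 0 (r - s)) v)) f‖ *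
      ‖M (ind (Tr (Metric.ball 0 (r + s) \ Metric.ball 0 r) v)) h‖) := by
  have hs0 : 0 ≤ s := ENNReal.toReal_nonneg.trans hs.le
  have b1 : MeasurableSet (Metric.ball v r) := Metric.isOpen_ball.measurableSet
  have b0 : MeasurableSet (Metric.ball v (r - s)) := Metric.isOpen_ball.measurableSet
  have b2 : MeasurableSet (Metric.ball v (r + s)) := Metric.isOpen_ball.measurableSet
  have t1 : Tr (Metric.ball 0 r \ Metric.ball 0 (r - s)) v =
      Metric.ball v r \ Metric.ball v (r - s) := by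
    rw [← Tr_ball r v, ← Tr_ball (r - s) v]; rfl
  have t2 : Tr (Metric.ball 0 (r + s) \ Metric.ball 0 r) v =
      Metric.ball v (r + s) \ Metric.ball v r := by
    rw [← Tr_ball r v, ← Tr_ball (r + s) v]; rfl
  rw [t1, t2]
  have s01 : Metric.ball v (r - s) ⊆ Metric.ball v r := Metric.ball_subset_ball (by linarith)
  have s12 : Metric.ball v r ⊆ Metric.ball v (r + s) := Metric.ball_subset_ball (by linarith)
  -- decompositions
  have d1 : M (ind (Metric.ball v r)) f = M (ind (Metric.ball v (r - s))) f +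
      M (ind (Metric.ball v r \ Metric.ball v (r - s))) f := by
    rw [← M_add b0 (b1.diff b0) Set.disjoint_sdiff_right, Set.union_sdiff_cancel s01]
  have d2 : M (ind (Metric.ball v (r + s))) h = M (ind (Metric.ball v r)) h +
      M (ind (Metric.ball v (r + s) \ Metric.ball v r)) h := by
    rw [← M_add b1 (b2.diff b1) Set.disjoint_sdiff_right, Set.union_sdiff_cancel s12]
  have d3 : h = M (ind (Metric.ball v (r + s))) h + M (ind (Metric.ball v (r + s))ᶜ) h :=
    (M_compl b2 h).symm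
  -- vanishing terms
  have z1 : M (ind (Metric.ball v (r + s))ᶜ) (B (M (ind (Metric.ball v r)) f)) = 0 := by
    apply band_zero hw hB hs b1 b2.compl
    intro x hx y hy
    rw [Metric.mem_ball] at hx
    rw [Set.mem_compl_iff, Metric.mem_ball, not_lt] at hy
    have := dist_triangle y x v
    rw [dist_comm y x] at this
    linarith
  have z2 : M (ind (Metric.ball v (r + s) \ Metric.ball v r))
      (B (M (ind (Metric.ball v (r - s))) f)) = 0 := by
    apply band_zero hw hB hs b0 (b2.diff b1)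
    intro x hx y hy
    rw [Metric.mem_ball] at hx
    have hy2 := hy.2
    rw [Metric.mem_ball, not_lt] at hy2
    have := dist_triangle y x v
    rw [dist_comm y x] at this
    linarith
  have e1 : (inner ℂ h (B (M (ind (Metric.ball v r)) f)) : ℂ) =
      inner ℂ (M (ind (Metric.ball v r)) h) (B (M (ind (Metric.ball v r)) f)) +
      inner ℂ (M (ind (Metric.ball v (r + s) \ Metric.ball v r)) h)
        (B (M (ind (Metric.ball v r \ Metric.ball v (r - s))) f)) := by
    conv_lhs => rw [d3, inner_add_left, M_inner b2.compl, z1, inner_zero_right, add_zero, d2,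
      inner_add_left]
    congr 1
    rw [d1, map_add, inner_add_right, M_inner (b2.diff b1) (B (M (ind (Metric.ball v (r - s))) f)),
      z2, inner_zero_right, zero_add]
  rw [e1, sub_add_cancel_left, norm_neg]
  refine (norm_inner_le_norm _ _).trans ?_
  calc _ ≤ ‖M (ind (Metric.ball v (r + s) \ Metric.ball v r)) h‖ *
        (‖B‖ * ‖M (ind (Metric.ball v r \ Metric.ball v (r - s))) f‖) :=
        mul_le_mul_of_nonneg_left (B.le_opNorm _) (norm_nonneg _)
    _ = _ := by ring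


theorem vol_ball (r : ℝ) (hr : 0 ≤ r) :
    volume.real (Metric.ball (0 : ℂ) r) = Real.pi * r ^ 2 := by
  rw [Measure.real, Complex.volume_ball, ENNReal.toReal_mul, ENNReal.toReal_pow,
    ENNReal.toReal_ofReal hr, ENNReal.coe_toReal, NNReal.coe_real_pi]
  ring

theorem vol_ball_ne (r : ℝ) : volume (Metric.ball (0 : ℂ) r) ≠ ∞ :=
  (Metric.isBounded_ball.measure_lt_top).ne

theorem vol_ring (r t : ℝ) (hr : 0 ≤ r) (ht : r ≤ t) :
    volume.real (Metric.ball (0 : ℂ) t \ Metric.ball 0 r) = Real.pi * (t ^ 2 - r ^ 2) := by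
  rw [measureReal_sdiff (Metric.ball_subset_ball ht) Metric.isOpen_ball.measurableSet
    (vol_ball_ne t), vol_ball t (hr.trans ht), vol_ball r hr]
  ring

theorem vol_ring_ne (r t : ℝ) : volume (Metric.ball (0 : ℂ) t \ Metric.ball 0 r) ≠ ∞ :=
  ((measure_mono Set.sdiff_subset).trans_lt (lt_top_iff_ne_top.2 (vol_ball_ne t))).ne

/-- the average form -/
def Q (r : ℝ) (T : H →L[ℂ] H) (f h : H) : ℂ :=
  ∫ v : ℂ, inner ℂ (M (ind (Metric.ball v r)) h) (T (M (ind (Metric.ball v r)) f))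

theorem Q_int (r : ℝ) (T : H →L[ℂ] H) (f h : H) : Integrable (fun v : ℂ =>
    (inner ℂ (M (ind (Metric.ball v r)) h) (T (M (ind (Metric.ball v r)) f)) : ℂ)) := by
  have hb : MeasurableSet (Metric.ball (0 : ℂ) r) := Metric.isOpen_ball.measurableSet
  have c := (cs hb hb (vol_ball_ne r) (vol_ball_ne r) f h).1
  simp_rw [Tr_ball] at c
  refine (c.const_mul ‖T‖).mono' ?_ ?_
  · exact ((cont_M r h).inner (T.continuous.comp (cont_M r f))).aestronglyMeasurable
  · filter_upwards with v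
    refine (norm_inner_le_norm _ _).trans ?_
    calc _ ≤ ‖M (ind (Metric.ball v r)) h‖ * (‖T‖ * ‖M (ind (Metric.ball v r)) f‖) :=
          mul_le_mul_of_nonneg_left (T.le_opNorm _) (norm_nonneg _)
      _ = _ := by ring

theorem Q_le (r : ℝ) (hr : 0 < r) (T : H →L[ℂ] H) (f h : H) :
    ‖Q r T f h‖ ≤ Real.pi * r ^ 2 * (‖T‖ * ‖f‖ * ‖h‖) := by
  have hb : MeasurableSet (Metric.ball (0 : ℂ) r) := Metric.isOpen_ball.measurableSet
  obtain ⟨c1, c2⟩ := cs hb hb (vol_ball_ne r) (vol_ball_ne r) f h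
  simp_rw [Tr_ball] at c1 c2
  rw [vol_ball r hr.le, Real.sqrt_mul_self (by positivity)] at c2
  calc ‖Q r T f h‖ ≤ ∫ v : ℂ, ‖T‖ * (‖M (ind (Metric.ball v r)) f‖ *
        ‖M (ind (Metric.ball v r)) h‖) := by
        apply norm_integral_le_of_norm_le (c1.const_mul _)
        filter_upwards with v
        refine (norm_inner_le_norm _ _).trans ?_
        calc _ ≤ ‖M (ind (Metric.ball v r)) h‖ * (‖T‖ * ‖M (ind (Metric.ball v r)) f‖) :=
              mul_le_mul_of_nonneg_left (T.le_opNorm _) (norm_nonneg _)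
          _ = _ := by ring
    _ = ‖T‖ * ∫ v : ℂ, (‖M (ind (Metric.ball v r)) f‖ *
        ‖M (ind (Metric.ball v r)) h‖) := integral_const_mul _ _
    _ ≤ ‖T‖ * (Real.pi * r ^ 2 * ‖f‖ * ‖h‖) := mul_le_mul_of_nonneg_left c2 (norm_nonneg _)
    _ = _ := by ring

theorem Q_sub (r : ℝ) (T S : H →L[ℂ] H) (f h : H) : Q r (T - S) f h = Q r T f h - Q r S f h := by
  unfold Q
  rw [← integral_sub (Q_int r T f h) (Q_int r S f h)]
  congr 1
  funext v
  rw [sub_apply, inner_sub_right]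

/-- the half average reproduces the form -/
theorem half (r : ℝ) (hr : 0 < r) (T : H →L[ℂ] H) (f h : H) :
    Integrable (fun v : ℂ => (inner ℂ h (T (M (ind (Metric.ball v r)) f)) : ℂ)) ∧
    ∫ v : ℂ, (inner ℂ h (T (M (ind (Metric.ball v r)) f)) : ℂ) =
      ((Real.pi * r ^ 2 : ℝ) : ℂ) * inner ℂ h (T f) := by
  have hb : ∀ v : ℂ, MeasurableSet (Metric.ball v r) := fun v => Metric.isOpen_ball.measurableSet
  obtain ⟨c1, c2⟩ := repr (hb 0) (vol_ball_ne r) f (ContinuousLinearMap.adjoint T h)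
  simp_rw [Tr_ball] at c1 c2
  have e : ∀ v : ℂ, (inner ℂ (M (ind (Metric.ball v r)) (ContinuousLinearMap.adjoint T h))
      (M (ind (Metric.ball v r)) f) : ℂ) = inner ℂ h (T (M (ind (Metric.ball v r)) f)) := by
    intro v
    rw [M_inner (hb v), M_idem (hb v), ContinuousLinearMap.adjoint_inner_left]
  simp_rw [e] at c1 c2
  rw [vol_ball r hr.le, ContinuousLinearMap.adjoint_inner_left] at c2
  exact ⟨c1, c2⟩

theorem band_est {B : H →L[ℂ] H} {w : ℝ≥0∞} (hw : w ≠ ∞)
    (hB : ∀ K L : Set ℂ, MeasurableSet K → MeasurableSet L →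
      (M (ind L)) ∘L B ∘L (M (ind K)) ≠ 0 → setDist K L ≤ w) {s r : ℝ} (hs : w.toReal < s)
    (hr : s ≤ r) (f h : H) :
    ‖Q r B f h - ((Real.pi * r ^ 2 : ℝ) : ℂ) * inner ℂ h (B f)‖ ≤
      Real.pi * (3 * r * s) * (‖B‖ * ‖f‖ * ‖h‖) := by
  have hs0 : 0 < s := lt_of_le_of_lt ENNReal.toReal_nonneg hs
  have hr0 : 0 < r := hs0.trans_le hr
  obtain ⟨h1, h2⟩ := half r hr0 B f h
  have m0 : MeasurableSet (Metric.ball (0 : ℂ) (r - s)) := Metric.isOpen_ball.measurableSet
  have m1 : MeasurableSet (Metric.ball (0 : ℂ) r) := Metric.isOpen_ball.measurableSet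
  have m2 : MeasurableSet (Metric.ball (0 : ℂ) (r + s)) := Metric.isOpen_ball.measurableSet
  obtain ⟨c1, c2⟩ := cs (m1.diff m0) (m2.diff m1) (vol_ring_ne (r - s) r) (vol_ring_ne r (r + s)) f h
  rw [vol_ring (r - s) r (by linarith) (by linarith), vol_ring r (r + s) hr0.le (by linarith)] at c2
  rw [← h2]
  unfold Q
  rw [← integral_sub (Q_int r B f h) h1]
  calc _ ≤ ∫ v : ℂ, ‖B‖ * (‖M (ind (Tr (Metric.ball 0 r \ Metric.ball 0 (r - s)) v)) f‖ *
      ‖M (ind (Tr (Metric.ball 0 (r + s) \ Metric.ball 0 r) v)) h‖) := by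
        apply norm_integral_le_of_norm_le (c1.const_mul _)
        filter_upwards with v
        exact key hw hB hs f h v
    _ = ‖B‖ * ∫ v : ℂ, (‖M (ind (Tr (Metric.ball 0 r \ Metric.ball 0 (r - s)) v)) f‖ *
      ‖M (ind (Tr (Metric.ball 0 (r + s) \ Metric.ball 0 r) v)) h‖) := integral_const_mul _ _
    _ ≤ ‖B‖ * (Real.sqrt (Real.pi * (r ^ 2 - (r - s) ^ 2) * (Real.pi * ((r + s) ^ 2 - r ^ 2))) *
        ‖f‖ * ‖h‖) := mul_le_mul_of_nonneg_left c2 (norm_nonneg _)
    _ ≤ ‖B‖ * ((Real.pi * (3 * r * s)) * ‖f‖ * ‖h‖) := by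
        apply mul_le_mul_of_nonneg_left _ (norm_nonneg _)
        apply mul_le_mul_of_nonneg_right _ (norm_nonneg _)
        apply mul_le_mul_of_nonneg_right _ (norm_nonneg _)
        rw [← Real.sqrt_sq (by positivity : (0:ℝ) ≤ Real.pi * (3 * r * s))]
        apply Real.sqrt_le_sqrt
        have hp := Real.pi_pos
        have e1 : r ^ 2 - (r - s) ^ 2 ≤ 3 * r * s := by nlinarith
        have e2 : (r + s) ^ 2 - r ^ 2 ≤ 3 * r * s := by nlinarith
        have e3 : 0 ≤ r ^ 2 - (r - s) ^ 2 := by nlinarith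
        have e4 : 0 ≤ (r + s) ^ 2 - r ^ 2 := by nlinarith
        calc _ ≤ Real.pi * (3 * r * s) * (Real.pi * (3 * r * s)) := by gcongr
          _ = _ := by ring
    _ = _ := by ring

end

end TP.Avg43

/-- PIECE AVG -/
theorem TP.piece_AVG : TP.P_AVG := by
  intro A hA ε hε
  obtain ⟨B, ⟨w, hw, hB⟩, hAB⟩ := Metric.mem_closure_iff.1 hA (ε / 4) (by positivity)
  rw [dist_eq_norm] at hAB
  set s : ℝ := w.toReal + 1 with hs
  have hws : w.toReal < s := by rw [hs]; linarith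
  have hs0 : 0 < s := lt_of_le_of_lt ENNReal.toReal_nonneg hws
  set r : ℝ := s + 6 * ‖B‖ * s / ε with hr
  have hsr : s ≤ r := by
    rw [hr]
    have : 0 ≤ 6 * ‖B‖ * s / ε := by positivity
    linarith
  have hr0 : 0 < r := hs0.trans_le hsr
  refine ⟨r, hr0, fun f h => ?_⟩
  have k1 := TP.Avg43.band_est hw hB hws hsr f h
  have k2 := TP.Avg43.Q_le r hr0 (A - B) f h
  rw [TP.Avg43.Q_sub] at k2
  have k3 : ‖(inner ℂ h ((A - B) f) : ℂ)‖ ≤ ‖A - B‖ * ‖f‖ * ‖h‖ := by
    refine (norm_inner_le_norm _ _).trans ?_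
    rw [mul_comm]
    exact mul_le_mul_of_nonneg_right ((A - B).le_opNorm f) (norm_nonneg _)
  rw [sub_apply, inner_sub_right] at k3
  have hc : 0 < Real.pi * r ^ 2 := by positivity
  change ‖(1 / (Real.pi * r ^ 2) : ℝ) • TP.Avg43.Q r A f h - inner ℂ h (A f)‖ ≤ _
  set c : ℝ := Real.pi * r ^ 2 with hcd
  have e1 : (1 / c : ℝ) • TP.Avg43.Q r A f h - inner ℂ h (A f) =
      (1 / c : ℝ) • ((TP.Avg43.Q r A f h - TP.Avg43.Q r B f h) +
        (TP.Avg43.Q r B f h - (c : ℂ) * inner ℂ h (B f)) -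
        (c : ℂ) * (inner ℂ h (A f) - inner ℂ h (B f))) := by
    rw [Complex.real_smul, Complex.real_smul]
    have : (c : ℂ) ≠ 0 := by exact_mod_cast hc.ne'
    push_cast
    field_simp
    ring
  rw [e1, norm_smul, Real.norm_of_nonneg (by positivity : 0 ≤ 1 / c)]
  have e2 : ‖(TP.Avg43.Q r A f h - TP.Avg43.Q r B f h) +
        (TP.Avg43.Q r B f h - (c : ℂ) * inner ℂ h (B f)) -
        (c : ℂ) * (inner ℂ h (A f) - inner ℂ h (B f))‖ ≤
      c * (‖A - B‖ * ‖f‖ * ‖h‖) + Real.pi * (3 * r * s) * (‖B‖ * ‖f‖ * ‖h‖) +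
        c * (‖A - B‖ * ‖f‖ * ‖h‖) := by
    refine (norm_sub_le _ _).trans (add_le_add ((norm_add_le _ _).trans (add_le_add k2 k1)) ?_)
    rw [norm_mul, Complex.norm_real, Real.norm_of_nonneg hc.le]
    exact mul_le_mul_of_nonneg_left k3 hc.le
  refine (mul_le_mul_of_nonneg_left e2 (by positivity)).trans ?_
  have hF : 0 ≤ ‖f‖ * ‖h‖ := by positivity
  have e3 : 1 / c * (c * (‖A - B‖ * ‖f‖ * ‖h‖) + Real.pi * (3 * r * s) * (‖B‖ * ‖f‖ * ‖h‖) +
        c * (‖A - B‖ * ‖f‖ * ‖h‖)) = (2 * ‖A - B‖ + 3 * s * ‖B‖ / r) * (‖f‖ * ‖h‖) := by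
    rw [hcd]
    field_simp
    ring
  rw [e3, mul_assoc ε]
  apply mul_le_mul_of_nonneg_right _ hF
  have e4 : 3 * s * ‖B‖ / r ≤ ε / 2 := by
    rw [div_le_iff₀ hr0]
    have : ε / 2 * r = ε / 2 * s + 3 * s * ‖B‖ := by
      rw [hr]; field_simp; ring
    rw [this]
    have : 0 ≤ ε / 2 * s := by positivity
    linarith
  linarith
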